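import Pool.Agent.PSS.StmtsS2

/-!
# Squad PSS, row CNH
-/

open scoped BigOperators

noncomputable section

namespace Pool.Agent.PSS.S2.H71

open Pool.Agent.PFD.D2b (FrR)

theorem cnh : CnhStmt := by
  intro R V A Ω _ _ _ _ _ _ q α χ H b c hf hχ hH
  refine ⟨hχ, fun a v => ?_⟩
  -- `χ 1` and `χ v⁻¹`
  obtain ⟨d₁, h1⟩ := hχ 1 1
  obtain ⟨d₂, h2⟩ := hχ v⁻¹ v
  rw [mul_one] at h1
  rw [inv_mul_cancel] at h2
  rw [smul_eq_mul] at h1 h2
  choose r hr using fun ω => hH v⁻¹ ω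
  simp only [smul_eq_mul] at hr
  have key : ∀ ω, H (((1 : V), v⁻¹) • ω) - H ω - χ v = q * (r ω + d₁ + d₂) := by
    intro ω
    linear_combination hr ω + h1 + h2
  have e1 : Nh H b c (a * α v) =
      ∑ ω, c ω a • (H (((1 : V), v⁻¹) • ω) • (b ω * α v)) := by
    have hbij : Function.Bijective (fun ω : Ω => ((1 : V), v⁻¹) • ω) :=
      MulAction.bijective ((1 : V), v⁻¹)
    have h3 : Nh H b c (a * α v) = ∑ ω, c ω (a * α v) • (H ω • b ω) := by
      simp only [Nh, LinearMap.sum_apply, LinearMap.smulRight_apply]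
    rw [h3]
    refine (Fintype.sum_bijective _ hbij _ _ fun ω => ?_).symm
    have hb : b (((1 : V), v⁻¹) • ω) = b ω * α v := by
      rw [hf.1]
      change α 1 * (b ω * α (v⁻¹)⁻¹) = _
      rw [map_one, one_mul, inv_inv]
    have hc : c (((1 : V), v⁻¹) • ω) (a * α v) = c ω a := by
      have h4 := hf.2.1 ((1 : V), v⁻¹) ω a
      have h5 : bw R α ((1 : V), v⁻¹) a = a * α v := by
        change α 1 * (a * α (v⁻¹)⁻¹) = _
        rw [map_one, one_mul, inv_inv]
      rw [h5] at h4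
      exact h4
    rw [hb, hc]
  have e2 : Nh H b c a * α v = ∑ ω, c ω a • (H ω • (b ω * α v)) := by
    simp only [Nh, LinearMap.sum_apply, LinearMap.smulRight_apply, Finset.sum_mul,
      smul_mul_assoc]
  have e3 : a * α v = ∑ ω, c ω a • (b ω * α v) := by
    conv_lhs => rw [← hf.2.2 a]
    simp only [Finset.sum_mul, smul_mul_assoc]
  refine ⟨∑ ω, c ω a • ((r ω + d₁ + d₂) • (b ω * α v)), ?_⟩
  have e4 : χ v • (a * α v) = ∑ ω, c ω a • (χ v • (b ω * α v)) := by
    conv_lhs => rw [e3]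
    rw [Finset.smul_sum]
    exact Finset.sum_congr rfl fun ω _ => smul_comm _ _ _
  rw [e1, e2, e4, ← Finset.sum_add_distrib, ← Finset.sum_sub_distrib, Finset.smul_sum]
  refine Finset.sum_congr rfl fun ω _ => ?_
  rw [smul_comm q (c ω a), smul_smul q, ← key ω, sub_smul, sub_smul, ← smul_add, ← smul_sub,
    sub_add_eq_sub_sub]

end Pool.Agent.PSS.S2.H71
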